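import Pool.Agent.H2LQ.Space
import Pool.Agent.W585.LQ.NM

/-!
# Connectedness, and the dense sequence
-/

set_option autoImplicit false

namespace Pool.Agent.H2LQ

open BoundedContinuousFunction Pool.Agent.W361.LQ Filter Topology
open Pool.Agent.W654.LQ.Dense (dist_est rep_exists angle floor_approx smul_angle getD_map_range fl_true)

/-- a point of the space has radii `1`, or is on one of the arcs -/
theorem K₁_cases {S : Set ℕ} {a : Pm} (h : a ∈ K₁ S) :
    (∀ n, a.2.1 n = 1) ∨ ∃ n, n ∉ S ∧ a ∈ Ar n := by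
  by_cases h1 : ∀ n, a.2.1 n = 1
  · exact Or.inl h1
  · push Not at h1
    obtain ⟨n, hn⟩ := h1
    refine Or.inr ⟨n, fun hS => hn ((h.1 n).2 hS), (h.2 n).resolve_left hn⟩

/-- points of the arcs -/
theorem Ar_eq {n : ℕ} {a : Pm} (h : a ∈ Ar n) : ∃ (b : Bool) (s : unitInterval), a = hf n b s := by
  obtain ⟨h1, h2, h3⟩ := h
  rcases h2 with h2 | h2
  · refine ⟨false, a.2.1 n, Prod.ext h1 (Prod.ext ?_ ?_)⟩
    · funext j
      by_cases hj : j = n
      · subst hj; simp [hf]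
      · simp [hf, hj, (h3 j hj).1]
    · funext j
      by_cases hj : j = n
      · subst hj; simp [hf, h2]
      · simp [hf, hj, (h3 j hj).2]
  · refine ⟨true, a.2.1 n, Prod.ext h1 (Prod.ext ?_ ?_)⟩
    · funext j
      by_cases hj : j = n
      · subst hj; simp [hf]
      · simp [hf, hj, (h3 j hj).1]
    · funext j
      by_cases hj : j = n
      · subst hj; simp [hf, h2]
      · simp [hf, hj, (h3 j hj).2]

/-! ## Codes -/

/-- the list with the entry `(j, ρ)` at `n` and `(0, 0)` before -/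
def lst (n j ρ : ℕ) : List (ℕ × ℕ) := (List.range (n + 1)).map fun m => if m = n then (j, ρ) else (0, 0)

theorem getD_lst (n j ρ m : ℕ) : (lst n j ρ).getD m (0, 0) = if m = n then (j, ρ) else (0, 0) := by
  unfold lst
  rw [getD_map_range]
  by_cases h : m = n
  · subst h; simp
  · simp [h]

theorem rr_one (c : Cd) (n : ℕ) (h : (c.2.2.getD n (0, 0)).2 = 0) : rr c n = 1 := by
  apply Subtype.ext
  show ((rho c n : ℕ) : ℝ) / 2 ^ c.2.1 = 1
  unfold rho
  rw [h, Nat.zero_min, Nat.sub_zero]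
  push_cast
  exact div_self (by positivity)

/-- the code of a point of the line -/
def c0 (A l : ℕ) : Cd := (A, l, [])

/-- the code of a point of arc `n` -/
def c1 (l n j ρ : ℕ) : Cd := (0, l, lst n (j % 2) ρ)

theorem c0_mem (S : Set ℕ) (A l : ℕ) : pm (c0 A l) ∈ K₁ S := by
  have hr : ∀ n, (pm (c0 A l)).2.1 n = 1 := fun n => rr_one _ _ (by simp [c0])
  exact ⟨fun n => ⟨smul_angle n _ _, fun _ => hr n⟩, fun n => Or.inl (hr n)⟩

theorem c1_Ar (l n j ρ : ℕ) : pm (c1 l n j ρ) ∈ Ar n := by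
  refine ⟨?_, ?_, fun m hm => ⟨?_, ?_⟩⟩
  · show ((((0 : ℕ) : ℝ) / 2 ^ l : ℝ) : UnitAddCircle) = 0
    simp
  · show (((((0 : ℕ) : ℝ) / 2 ^ l + jj (c1 l n j ρ) n) / M n : ℝ) : UnitAddCircle) = 0 ∨
      (((((0 : ℕ) : ℝ) / 2 ^ l + jj (c1 l n j ρ) n) / M n : ℝ) : UnitAddCircle) = an n
    have : jj (c1 l n j ρ) n = j % 2 := by
      unfold jj c1
      simp only
      rw [getD_lst, if_pos rfl]
    rw [this]
    rcases Nat.mod_two_eq_zero_or_one j with h | h
    · left; rw [h]; simp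
    · right; rw [h]; simp [an]
  · refine rr_one _ _ ?_
    unfold c1
    simp only
    rw [getD_lst, if_neg hm]
  · show (((((0 : ℕ) : ℝ) / 2 ^ l + jj (c1 l n j ρ) m) / M m : ℝ) : UnitAddCircle) = 0
    have : jj (c1 l n j ρ) m = 0 := by
      unfold jj c1
      simp only
      rw [getD_lst, if_neg hm]
    rw [this]
    simp

theorem Ar_mem {S : Set ℕ} {n : ℕ} (hn : n ∉ S) {a : Pm} (h : a ∈ Ar n) : a ∈ K₁ S := by
  obtain ⟨b, s, rfl⟩ := Ar_eq h
  exact hf_mem hn b s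

theorem coprime_M {i j : ℕ} (h : i ≠ j) : Nat.Coprime (M i) (M j) :=
  Nat.coprime_fermatNumber_fermatNumber h

/-- the line is dense in the solenoid -/
theorem dense_line {S : Set ℕ} {a : Pm} (ha : a ∈ K₁ S) (h1 : ∀ n, a.2.1 n = 1) (ε : ℝ)
    (hε : 0 < ε) : ∃ A l : ℕ, dist (Phi a) (Phi (pm (c0 A l))) < ε := by
  obtain ⟨N, hN⟩ := exists_pow_lt_of_lt_one (show (0 : ℝ) < ε / 4 by linarith)
    (show (1 / 2 : ℝ) < 1 by norm_num)
  obtain ⟨t, ht0, ht1, ht⟩ := rep_exists a.1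
  have hang : ∀ n, ∃ j : ℕ, a.2.2 n = (((t + j) / M n : ℝ) : UnitAddCircle) := by
    intro n
    apply angle n t ht1
    rw [(ha.1 n).1, ht]
  choose j hj using hang
  obtain ⟨J, hJ⟩ := Nat.chineseRemainderOfFinset j M (Finset.range N)
    (fun i _ => (Nat.succ_ne_zero _)) (fun i _ k _ hik => coprime_M hik)
  have hJ' : ∀ n < N, J ≡ j n [MOD M n] := fun n hn => hJ n (Finset.mem_range.2 hn)
  have hj2 : ∀ n, a.2.2 n = (((t + J + ((if n < N then 0 else j n + (M n - 1) * J : ℕ) : ℝ)) / M n : ℝ) :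
      UnitAddCircle) := by
    intro n
    have hM := (M_pos' n).ne'
    rw [hj n]
    split_ifs with h
    · obtain ⟨z, hz⟩ := (Nat.modEq_iff_dvd.1 (hJ' n h))
      have hz' : (j n : ℝ) = J + M n * z := by
        have : (j n : ℤ) = J + M n * z := by linarith
        exact_mod_cast this
      have e : (t + j n) / M n = (t + J + ((0 : ℕ) : ℝ)) / M n + z := by
        rw [hz']; push_cast; field_simp; ring
      rw [e, AddCircle.coe_add]
      have : ((z : ℝ) : UnitAddCircle) = 0 := by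
        rw [AddCircle.coe_eq_zero_iff]; exact ⟨z, by simp⟩
      rw [this, add_zero]
    · have h1 : 1 ≤ M n := Nat.succ_le_succ (Nat.zero_le _)
      have e : (t + J + ((j n + (M n - 1) * J : ℕ) : ℝ)) / M n = (t + j n) / M n + (J : ℝ) := by
        push_cast [Nat.cast_sub h1]; field_simp; ring
      rw [e, AddCircle.coe_add, coe_nat', add_zero]
  obtain ⟨l, hl⟩ := exists_pow_lt_of_lt_one (show (0 : ℝ) < ε / 4 by linarith)
    (show (1 / 2 : ℝ) < 1 by norm_num)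
  refine ⟨⌊(t + J) * 2 ^ l⌋₊, l, ?_⟩
  have := dist_est a (c0 ⌊(t + J) * 2 ^ l⌋₊ l) (t + J) N ε
    (fun n => if n < N then 0 else j n + (M n - 1) * J) hN hl
    (by rw [AddCircle.coe_add, coe_nat', add_zero, ht]) hj2
    (floor_approx (t + J) (by positivity) l)
    (fun n hn => by
      rw [h1 n]
      simp [c0, hn])
  linarith

theorem dense_arc {n : ℕ} {a : Pm} (ha : a ∈ Ar n) (ε : ℝ) (hε : 0 < ε) :
    ∃ l j ρ : ℕ, dist (Phi a) (Phi (pm (c1 l n j ρ))) < ε := by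
  obtain ⟨N, hN⟩ := exists_pow_lt_of_lt_one (show (0 : ℝ) < ε / 4 by linarith)
    (show (1 / 2 : ℝ) < 1 by norm_num)
  obtain ⟨l, hl⟩ := exists_pow_lt_of_lt_one (show (0 : ℝ) < ε / 4 by linarith)
    (show (1 / 2 : ℝ) < 1 by norm_num)
  obtain ⟨h1, h2, h3⟩ := ha
  obtain ⟨j, hj2, hj⟩ : ∃ j : ℕ, j < 2 ∧ a.2.2 n = (((0 + (j : ℝ)) / M n : ℝ) : UnitAddCircle) := by
    rcases h2 with h2 | h2
    · exact ⟨0, by norm_num, by rw [h2]; simp⟩
    · exact ⟨1, by norm_num, by rw [h2]; simp [an]⟩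
  refine ⟨l, j, ⌊(1 - (a.2.1 n : ℝ)) * 2 ^ l⌋₊, ?_⟩
  have := dist_est a (c1 l n j ⌊(1 - (a.2.1 n : ℝ)) * 2 ^ l⌋₊) 0 N ε (fun m => if m = n then j else 0)
    hN hl (by rw [h1]; simp)
    (fun m => by
      by_cases hm : m = n
      · subst hm; simpa using hj
      · simp [hm, (h3 m hm).2])
    (by simp [c1])
    (fun m hm => by
      show (lst n (j % 2) _).getD m (0, 0) = _
      rw [getD_lst]
      by_cases hmn : m = n
      · subst hmn
        simp only [if_true]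
        rw [Nat.mod_eq_of_lt hj2]
        rfl
      · simp only [hmn, if_false]
        rw [(h3 m hmn).1]
        simp)
  linarith

/-! ## The dense sequence -/

def uA (k : ℕ) : ℕ := k.unpair.1
def ul (k : ℕ) : ℕ := k.unpair.2.unpair.1
def us (k : ℕ) : ℕ := k.unpair.2.unpair.2.unpair.1
def un (k : ℕ) : ℕ := k.unpair.2.unpair.2.unpair.2.unpair.1
def uj (k : ℕ) : ℕ := k.unpair.2.unpair.2.unpair.2.unpair.2.unpair.1
def ur (k : ℕ) : ℕ := k.unpair.2.unpair.2.unpair.2.unpair.2.unpair.2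

/-- the code of the `k`-th point of the dense sequence -/
def sq₁ (T : ℕ → ℕ → Bool) (k : ℕ) : Cd :=
  if fl T (un k) (us k) then c1 (ul k) (un k) (uj k) (ur k) else c0 (uA k) (ul k)

theorem sq₁_mem (S : Set ℕ) (T : ℕ → ℕ → Bool) (hT : ∀ n, n ∉ S ↔ ∃ y, T n y = true) (k : ℕ) :
    pm (sq₁ T k) ∈ K₁ S := by
  unfold sq₁
  split_ifs with h
  · rw [fl_true] at h
    obtain ⟨y, _, hy⟩ := h
    exact Ar_mem ((hT _).2 ⟨y, hy⟩) (c1_Ar _ _ _ _)
  · exact c0_mem S _ _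

theorem sq₁_dense (S : Set ℕ) (T : ℕ → ℕ → Bool) (hT : ∀ n, n ∉ S ↔ ∃ y, T n y = true) :
    ∀ a ∈ K₁ S, ∀ ε : ℝ, 0 < ε → ∃ k, dist (Phi a) (Phi (pm (sq₁ T k))) < ε := by
  intro a ha ε hε
  rcases K₁_cases ha with h | ⟨n, hn, h⟩
  · obtain ⟨A, l, hAl⟩ := dense_line ha h ε hε
    refine ⟨Nat.pair A (Nat.pair l (Nat.pair 0 (Nat.pair 0 (Nat.pair 0 0)))), ?_⟩
    have e : sq₁ T (Nat.pair A (Nat.pair l (Nat.pair 0 (Nat.pair 0 (Nat.pair 0 0))))) = c0 A l := by
      simp [sq₁, un, us, uA, ul, fl]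
    rw [e]
    exact hAl
  · obtain ⟨l, j, ρ, h1⟩ := dense_arc h ε hε
    obtain ⟨y, hy⟩ := (hT n).1 hn
    refine ⟨Nat.pair 0 (Nat.pair l (Nat.pair (y + 1) (Nat.pair n (Nat.pair j ρ)))), ?_⟩
    have hf : fl T n (y + 1) = true := (fl_true T n (y + 1)).2 ⟨y, Nat.lt_succ_self y, hy⟩
    have e : sq₁ T (Nat.pair 0 (Nat.pair l (Nat.pair (y + 1) (Nat.pair n (Nat.pair j ρ))))) =
        c1 l n j ρ := by
      simp [sq₁, un, us, ul, uj, ur, hf]
    rw [e]
    exact h1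

/-! ## The sequence is computable with the oracle -/

open Pool.Agent.Helper227 Pool.Agent.H685R3

theorem p_uA : Primrec uA := Primrec.fst.comp Primrec.unpair
theorem p_r1 : Primrec fun k : ℕ => k.unpair.2 := Primrec.snd.comp Primrec.unpair
theorem p_r2 : Primrec fun k : ℕ => k.unpair.2.unpair.2 := p_r1.comp p_r1
theorem p_r3 : Primrec fun k : ℕ => k.unpair.2.unpair.2.unpair.2 := p_r1.comp p_r2
theorem p_r4 : Primrec fun k : ℕ => k.unpair.2.unpair.2.unpair.2.unpair.2 := p_r1.comp p_r3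
theorem p_ul : Primrec ul := p_uA.comp p_r1
theorem p_us : Primrec us := p_uA.comp p_r2
theorem p_un : Primrec un := p_uA.comp p_r3
theorem p_uj : Primrec uj := p_uA.comp p_r4
theorem p_ur : Primrec ur := p_r1.comp p_r4

theorem p_lst : Primrec fun x : ℕ × ℕ × ℕ => lst x.1 x.2.1 x.2.2 := by
  unfold lst
  refine Primrec.list_map (f := fun x : ℕ × ℕ × ℕ => List.range (x.1 + 1))
    (g := fun (x : ℕ × ℕ × ℕ) (m : ℕ) => if m = x.1 then (x.2.1, x.2.2) else (0, 0)) ?_ ?_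
  · exact Primrec.list_range.comp (Primrec.succ.comp Primrec.fst)
  · refine Primrec.ite ?_ ?_ ?_
    · exact Primrec.eq.comp Primrec.snd (Primrec.fst.comp Primrec.fst)
    · exact Primrec.snd.comp Primrec.fst
    · exact Primrec.const (0, 0)

theorem p_c0 : Primrec fun k : ℕ => c0 (uA k) (ul k) :=
  p_uA.pair (p_ul.pair (Primrec.const []))

theorem p_c1 : Primrec fun k : ℕ => c1 (ul k) (un k) (uj k) (ur k) := by
  have h1 : Primrec fun k : ℕ => uj k % 2 := Primrec.nat_mod.comp p_uj (Primrec.const 2)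
  have h2 : Primrec fun k : ℕ => (un k, uj k % 2, ur k) := p_un.pair (h1.pair p_ur)
  have h3 : Primrec fun k : ℕ => lst (un k) (uj k % 2) (ur k) :=
    p_lst.comp (g := fun k : ℕ => (un k, uj k % 2, ur k)) h2
  have h4 : Primrec fun k : ℕ => (ul k, lst (un k) (uj k % 2) (ur k)) := p_ul.pair h3
  have h5 : Primrec fun k : ℕ => ((0 : ℕ), ul k, lst (un k) (uj k % 2) (ur k)) :=
    (Primrec.const 0).pair h4
  exact h5

theorem nm₁ (D : ℕ → Bool) (T : ℕ → ℕ → Bool) (hT : TLe (fun m => T m.unpair.1 m.unpair.2) D) :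
    SI D fun x : ℕ × Cd => sq₁ T x.1 = x.2 := by
  obtain ⟨h1, h2⟩ := Pool.Agent.W585.LQ.NM.aux D T (tLe_iff_SI.1 hT)
  have a1 : SI D fun x : ℕ × Cd => fl T (un x.1) (us x.1) = true :=
    h1.comp (f := fun x : ℕ × Cd => (un x.1, us x.1))
      ((p_un.comp Primrec.fst).pair (p_us.comp Primrec.fst))
  have a2 : SI D fun x : ℕ × Cd => fl T (un x.1) (us x.1) = false :=
    h2.comp (f := fun x : ℕ × Cd => (un x.1, us x.1))
      ((p_un.comp Primrec.fst).pair (p_us.comp Primrec.fst))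
  have b1 : SI D fun x : ℕ × Cd => c1 (ul x.1) (un x.1) (uj x.1) (ur x.1) = x.2 :=
    SI.of_prim (Primrec.eq.comp (p_c1.comp Primrec.fst) Primrec.snd)
  have b2 : SI D fun x : ℕ × Cd => c0 (uA x.1) (ul x.1) = x.2 :=
    SI.of_prim (Primrec.eq.comp (p_c0.comp Primrec.fst) Primrec.snd)
  refine ((a1.and b1).or (a2.and b2)).of_eq fun x => ?_
  unfold sq₁
  cases fl T (un x.1) (us x.1) <;> simp

/-! ## Connectedness -/

theorem ln_c0 (A l : ℕ) : pm (c0 A l) = ln ((A : ℝ) / 2 ^ l) := by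
  refine Prod.ext rfl (Prod.ext ?_ ?_)
  · funext n
    exact rr_one _ _ (by simp [c0])
  · funext n
    show (((((A : ℕ) : ℝ) / 2 ^ l + jj (c0 A l) n) / M n : ℝ) : UnitAddCircle) =
      ((((A : ℝ) / 2 ^ l) / M n : ℝ) : UnitAddCircle)
    have : jj (c0 A l) n = 0 := by simp [jj, c0]
    rw [this]
    simp

theorem isConnected_X₁ (S : Set ℕ) : IsConnected (X₁ S) := by
  have hline : IsPreconnected (Set.range fun t : ℝ => Phi (ln t)) :=
    isPreconnected_range (cont_Phi.comp cont_ln)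
  have hhalf : ∀ n b, IsPreconnected (Set.range fun s : unitInterval => Phi (hf n b s)) :=
    fun n b => isPreconnected_range (cont_Phi.comp (cont_hf n b))
  have hsub : (Set.range fun t : ℝ => Phi (ln t)) ⊆ X₁ S := by
    rintro _ ⟨t, rfl⟩
    exact ⟨ln t, ln_mem S t, rfl⟩
  refine ⟨⟨Phi (ln 0), hsub ⟨0, rfl⟩⟩, isPreconnected_of_forall (Phi (ln 0)) ?_⟩
  rintro _ ⟨a, ha, rfl⟩
  rcases K₁_cases ha with h | ⟨n, hn, h⟩
  · refine ⟨insert (Phi a) (Set.range fun t : ℝ => Phi (ln t)), ?_, ?_, ?_, ?_⟩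
    · exact Set.insert_subset ⟨a, ha, rfl⟩ hsub
    · exact Or.inr ⟨0, rfl⟩
    · exact Or.inl rfl
    · refine hline.subset_closure (Set.subset_insert _ _) (Set.insert_subset ?_ subset_closure)
      rw [Metric.mem_closure_iff]
      intro ε hε
      obtain ⟨A, l, hAl⟩ := dense_line ha h ε hε
      exact ⟨_, ⟨(A : ℝ) / 2 ^ l, rfl⟩, by rw [ln_c0] at hAl; exact hAl⟩
  · obtain ⟨b, s, rfl⟩ := Ar_eq h
    have hs : ∀ b, (Set.range fun s : unitInterval => Phi (hf n b s)) ⊆ X₁ S := by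
      rintro b _ ⟨s, rfl⟩
      exact ⟨hf n b s, hf_mem hn b s, rfl⟩
    refine ⟨(Set.range fun s : unitInterval => Phi (hf n false s)) ∪
      (Set.range fun s : unitInterval => Phi (hf n true s)), Set.union_subset (hs _) (hs _), ?_, ?_, ?_⟩
    · exact Or.inl ⟨1, by rw [← hf_base n]⟩
    · cases b
      · exact Or.inl ⟨s, rfl⟩
      · exact Or.inr ⟨s, rfl⟩
    · exact IsPreconnected.union (Phi (hf n false 0)) ⟨0, rfl⟩ ⟨0, (hf_tip n).symm⟩ (hhalf n false)
        (hhalf n true)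

end Pool.Agent.H2LQ
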