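import Pool.Agent.H2LQ.Dense

/-!
# The space has finite covering dimension
-/

set_option autoImplicit false

namespace Pool.Agent.H2LQ

open BoundedContinuousFunction Pool.Agent.W361.LQ Filter Topology
open Pool.Agent.W654.LQ.Dense (rep_exists angle smul_angle dist_co)
open Pool.Agent.W952.LP (DimLE)

/-! ## Small closed covers of bounded order -/

/-- the set `A` has a finite cover by closed sets of diameter at most `ε`, each point being in at
most `K` of them -/
def SC {E : Type} [MetricSpace E] (A : Set E) (K : ℕ) (ε : ℝ) : Prop :=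
  ∃ (κ : Type) (_ : Finite κ) (F : κ → Set E), (∀ k, IsClosed (F k)) ∧ (∀ x ∈ A, ∃ k, x ∈ F k) ∧
    (∀ k, ∀ x ∈ F k, ∀ y ∈ F k, dist x y ≤ ε) ∧ ∀ x, {k | x ∈ F k}.ncard ≤ K

theorem SC.union {E : Type} [MetricSpace E] {A B : Set E} {K K' : ℕ} {ε : ℝ} (h : SC A K ε)
    (h' : SC B K' ε) : SC (A ∪ B) (K + K') ε := by
  obtain ⟨κ, hκ, F, h1, h2, h3, h4⟩ := h
  obtain ⟨κ', hκ', F', h1', h2', h3', h4'⟩ := h'
  refine ⟨κ ⊕ κ', inferInstance, Sum.elim F F', ?_, ?_, ?_, ?_⟩
  · rintro (k | k)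
    · exact h1 k
    · exact h1' k
  · rintro x (hx | hx)
    · obtain ⟨k, hk⟩ := h2 x hx
      exact ⟨Sum.inl k, hk⟩
    · obtain ⟨k, hk⟩ := h2' x hx
      exact ⟨Sum.inr k, hk⟩
  · rintro (k | k)
    · exact h3 k
    · exact h3' k
  · intro x
    have e : {k : κ ⊕ κ' | x ∈ Sum.elim F F' k} = Sum.inl '' {k | x ∈ F k} ∪
        Sum.inr '' {k | x ∈ F' k} := by
      ext k
      rcases k with k | k <;> simp
    rw [e]
    refine (Set.ncard_union_le _ _).trans ?_
    rw [Set.ncard_image_of_injective _ Sum.inl_injective,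
      Set.ncard_image_of_injective _ Sum.inr_injective]
    exact Nat.add_le_add (h4 x) (h4' x)

theorem SC.mono {E : Type} [MetricSpace E] {A B : Set E} {K : ℕ} {ε : ℝ} (h : SC A K ε)
    (hB : B ⊆ A) : SC B K ε := by
  obtain ⟨κ, hκ, F, h1, h2, h3, h4⟩ := h
  exact ⟨κ, hκ, F, h1, fun x hx => h2 x (hB hx), h3, h4⟩

theorem SC.subtype {E : Type} [MetricSpace E] {A : Set E} {K : ℕ} {ε : ℝ} (h : SC A K ε) :
    SC (Set.univ : Set A) K ε := by
  obtain ⟨κ, hκ, F, h1, h2, h3, h4⟩ := h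
  refine ⟨κ, hκ, fun k => Subtype.val ⁻¹' F k, fun k => (h1 k).preimage continuous_subtype_val, ?_,
    fun k x hx y hy => h3 k x hx y hy, fun x => h4 x⟩
  rintro ⟨x, hx⟩ _
  exact h2 x hx

/-- swelling -/
theorem swell {E : Type} [MetricSpace E] [CompactSpace E] {κ : Type} [Finite κ] (F : κ → Set E)
    (h1 : ∀ k, IsClosed (F k)) (hne : ∀ k, (F k).Nonempty) (K : ℕ)
    (h4 : ∀ x, {k | x ∈ F k}.ncard ≤ K) :
    ∃ η : ℝ, 0 < η ∧ ∀ η' : ℝ, η' ≤ η → ∀ x, {k | x ∈ Metric.thickening η' (F k)}.ncard ≤ K := by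
  classical
  haveI := Fintype.ofFinite κ
  have key : ∀ I : Finset κ, ∃ m : ℝ, 0 < m ∧ (K < I.card → ∀ x : E, ∃ k ∈ I, m ≤ Metric.infDist x (F k)) := by
    intro I
    by_cases hI : K < I.card
    · rcases isEmpty_or_nonempty E with hE | hE
      · exact ⟨1, one_pos, fun _ x => (hE.false x).elim⟩
      · have hc : Continuous fun x : E => ∑ k ∈ I, Metric.infDist x (F k) :=
          continuous_finsetSum _ fun k _ => Metric.continuous_infDist_pt _
        obtain ⟨x0, -, hx0⟩ := isCompact_univ.exists_isMinOn Set.univ_nonempty hc.continuousOn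
        have hpos : 0 < ∑ k ∈ I, Metric.infDist x0 (F k) := by
          by_contra hcon
          push Not at hcon
          have h0 : ∀ k ∈ I, Metric.infDist x0 (F k) = 0 := by
            have h5 : ∑ k ∈ I, Metric.infDist x0 (F k) = 0 :=
              le_antisymm hcon (Finset.sum_nonneg fun k _ => Metric.infDist_nonneg)
            exact (Finset.sum_eq_zero_iff_of_nonneg fun k _ => Metric.infDist_nonneg).1 h5
          have h6 : (I : Set κ) ⊆ {k | x0 ∈ F k} := fun k hk =>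
            ((h1 k).mem_iff_infDist_zero (hne k)).2 (h0 k hk)
          have h7 := Set.ncard_le_ncard h6 (Set.toFinite _)
          rw [Set.ncard_coe_finset] at h7
          exact absurd (h7.trans (h4 x0)) (not_le.2 hI)
        have hIc : (0 : ℝ) < I.card := by
          have : 0 < I.card := by omega
          exact_mod_cast this
        refine ⟨(∑ k ∈ I, Metric.infDist x0 (F k)) / I.card, by positivity, fun _ x => ?_⟩
        by_contra hcon
        push Not at hcon
        have h8 : ∑ k ∈ I, Metric.infDist x (F k) <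
            ∑ k ∈ I, (∑ k ∈ I, Metric.infDist x0 (F k)) / I.card :=
          Finset.sum_lt_sum_of_nonempty (Finset.card_pos.1 (by omega)) fun k hk => hcon k hk
        rw [Finset.sum_const, nsmul_eq_mul, mul_div_cancel₀ _ hIc.ne'] at h8
        exact absurd (hx0 (Set.mem_univ x)) (not_le.2 h8)
    · exact ⟨1, one_pos, fun h => absurd h hI⟩
  choose m hm0 hm using key
  have hev : ∀ᶠ η : ℝ in 𝓝[>] 0, ∀ I : Finset κ, η ∈ Set.Ioo (0 : ℝ) (m I) :=
    eventually_all.2 fun I => Ioo_mem_nhdsGT (hm0 I)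
  obtain ⟨η, hη⟩ := hev.exists
  refine ⟨η, (hη ∅).1, fun η' hη' x => ?_⟩
  by_contra hcon
  push Not at hcon
  have hfin : {k | x ∈ Metric.thickening η' (F k)}.Finite := Set.toFinite _
  rw [Set.ncard_eq_toFinset_card _ hfin] at hcon
  obtain ⟨k, hk, hk2⟩ := hm _ hcon x
  rw [Set.Finite.mem_toFinset] at hk
  have h9 : Metric.infDist x (F k) < η' := (Metric.mem_thickening_iff_infDist_lt (hne k)).1 hk
  have h10 := (hη hfin.toFinset).2
  linarith

theorem dimLE_of_SC {E : Type} [MetricSpace E] [CompactSpace E] {K : ℕ}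
    (h : ∀ ε : ℝ, 0 < ε → SC (Set.univ : Set E) (K + 1) ε) : DimLE E K := by
  intro ι _ U hU hcov
  obtain ⟨δ, hδ, hδ2⟩ := lebesgue_number_lemma_of_metric (s := (Set.univ : Set E)) isCompact_univ hU
    (by rw [hcov])
  obtain ⟨κ, hκ, F, h1, h2, h3, h4⟩ := h (δ / 4) (by linarith)
  let κ' : Type := {k : κ // (F k).Nonempty}
  obtain ⟨η, hη, hη2⟩ := swell (fun k : κ' => F k.1) (fun k => h1 k.1) (fun k => k.2) (K + 1) (by
    intro x
    have e : Subtype.val '' {k : κ' | x ∈ F k.1} ⊆ {k | x ∈ F k} := by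
      rintro _ ⟨k, hk, rfl⟩
      exact hk
    have := Set.ncard_le_ncard e (Set.toFinite _)
    rw [Set.ncard_image_of_injective _ Subtype.val_injective] at this
    exact this.trans (h4 x))
  refine ⟨κ', inferInstance, fun k => Metric.thickening (min η (δ / 4)) (F k.1),
    fun k => Metric.isOpen_thickening, ?_, ?_, ?_⟩
  · rw [Set.eq_univ_iff_forall]
    intro x
    obtain ⟨k, hk⟩ := h2 x (Set.mem_univ x)
    exact Set.mem_iUnion.2 ⟨⟨k, ⟨x, hk⟩⟩, Metric.self_subset_thickening (by positivity) _ hk⟩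
  · rintro ⟨k, x, hx⟩
    obtain ⟨i, hi⟩ := hδ2 x (Set.mem_univ x)
    refine ⟨i, fun y hy => hi ?_⟩
    obtain ⟨z, hz, hz2⟩ := Metric.mem_thickening_iff.1 hy
    have h5 := h3 k z hz x hx
    have h6 := dist_triangle y z x
    have h7 := min_le_right η (δ / 4)
    rw [Metric.mem_ball]
    linarith
  · intro x
    exact hη2 _ (min_le_left _ _) x

/-! ## Estimates in the space -/

theorem dist_le_par (a b : Pm) (N : ℕ) (δ : ℝ) (h0 : ‖a.1 - b.1‖ ≤ δ)
    (h : ∀ n < N, |(a.2.1 n : ℝ) - b.2.1 n| + ‖a.2.2 n - b.2.2 n‖ ≤ δ)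
    (hN : 2 * (1 / 2 : ℝ) ^ N ≤ δ) : dist (Phi a) (Phi b) ≤ δ := by
  have hδ : 0 ≤ δ := le_trans (by positivity) hN
  rw [BoundedContinuousFunction.dist_le hδ]
  intro i
  rw [Phi_apply, Phi_apply]
  rcases Nat.eq_zero_or_pos i with hi | hi
  · subst hi
    have e3 : dist (crd a 0) (crd b 0) = dist (co 1 a.1) (co 1 b.1) := rfl
    rw [e3]
    refine (dist_co 1 1 _ _ zero_le_one le_rfl).trans ?_
    rw [sub_self, abs_zero, zero_add]
    exact h0
  · by_cases hiN : i ≤ N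
    · obtain ⟨n, rfl⟩ : ∃ n, i = n + 1 := ⟨i - 1, by omega⟩
      have e1 : ‖(1 / 2 : ℝ) ^ (n + 1)‖ ≤ 1 := by
        rw [norm_pow]
        refine pow_le_one₀ (norm_nonneg _) ?_
        norm_num
      have e3 : dist (crd a (n + 1)) (crd b (n + 1)) = ‖(1 / 2 : ℝ) ^ (n + 1)‖ *
          dist (co (a.2.1 n : ℝ) (a.2.2 n)) (co (b.2.1 n : ℝ) (b.2.2 n)) := by
        rw [← dist_smul₀]
        rfl
      rw [e3]
      have e4 := mul_le_mul_of_nonneg_right e1 (dist_nonneg
        (x := co (a.2.1 n : ℝ) (a.2.2 n)) (y := co (b.2.1 n : ℝ) (b.2.2 n)))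
      rw [one_mul] at e4
      exact (e4.trans (dist_co _ _ _ _ (b.2.1 n).2.1 (b.2.1 n).2.2)).trans (h n (by omega))
    · have h1 := norm_crd_le' a i
      have h2 := norm_crd_le' b i
      have h3 : (1 / 2 : ℝ) ^ i ≤ (1 / 2 : ℝ) ^ N :=
        pow_le_pow_of_le_one (by norm_num) (by norm_num) (by omega)
      have h4 := dist_le_norm_add_norm (crd a i) (crd b i)
      linarith

/-- the index of a real number in a grid -/
theorem grid (L : ℕ) (x : ℝ) (j : ℕ) (h1 : (j : ℝ) ≤ L * x) (h2 : (L : ℝ) * x ≤ j + 1) :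
    j = ⌊(L : ℝ) * x⌋₊ ∨ j = ⌊(L : ℝ) * x⌋₊ - 1 := by
  rcases h2.lt_or_eq with h3 | h3
  · left
    exact ((Nat.floor_eq_iff (le_trans (Nat.cast_nonneg j) h1)).2 ⟨h1, h3⟩).symm
  · right
    rw [h3]
    have : ⌊((j : ℝ) + 1)⌋₊ = j + 1 := by
      have := Nat.floor_natCast (R := ℝ) (j + 1)
      push_cast at this
      exact this
    rw [this]
    rfl

theorem exists_cell (L : ℕ) (hL : 0 < L) (x : ℝ) (h0 : 0 ≤ x) (h1 : x ≤ 1) :
    ∃ j < L, (j : ℝ) ≤ L * x ∧ (L : ℝ) * x ≤ j + 1 := by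
  have hL' : (0 : ℝ) < L := by exact_mod_cast hL
  rcases h1.lt_or_eq with h2 | h2
  · refine ⟨⌊(L : ℝ) * x⌋₊, ?_, Nat.floor_le (by positivity), (Nat.lt_floor_add_one _).le⟩
    have : (⌊(L : ℝ) * x⌋₊ : ℝ) < L := by
      refine (Nat.floor_le (by positivity)).trans_lt ?_
      nlinarith
    exact_mod_cast this
  · refine ⟨L - 1, by omega, ?_, ?_⟩
    · rw [h2]
      push_cast [Nat.cast_sub (show 1 ≤ L by omega)]
      linarith
    · rw [h2]
      push_cast [Nat.cast_sub (show 1 ≤ L by omega)]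
      linarith

theorem inj {a b : Pm} (h : Phi a = Phi b) :
    a.1 = b.1 ∧ ∀ n, a.2.1 n = b.2.1 n ∧ (a.2.1 n ≠ 0 → a.2.2 n = b.2.2 n) :=
  Pool.Agent.W168.LQ.main a b h

/-! ### The solenoid -/

/-- the first angles of a point of a lifted arc -/
noncomputable def gam (N : ℕ) (β : (n : Fin N) → Fin (M n)) (t : ℝ) :
    UnitAddCircle × (Fin N → UnitAddCircle) :=
  ((t : UnitAddCircle), fun n => (((t + (β n : ℕ)) / M n : ℝ) : UnitAddCircle))

theorem cont_gam (N : ℕ) (β : (n : Fin N) → Fin (M n)) : Continuous (gam N β) := by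
  unfold gam
  refine (AddCircle.continuous_mk' (1 : ℝ)).prodMk (continuous_pi fun j => ?_)
  exact (AddCircle.continuous_mk' (1 : ℝ)).comp ((continuous_id.add continuous_const).div_const _)

/-- the projection to the first angles -/
def prj (N : ℕ) (a : Pm) : UnitAddCircle × (Fin N → UnitAddCircle) := (a.1, fun n => a.2.2 n)

theorem cont_prj (N : ℕ) : Continuous (prj N) :=
  continuous_fst.prodMk (continuous_pi fun n => cont_w n)

/-- a piece of the solenoid -/
def Pc (S : Set ℕ) (L N : ℕ) (k : Fin L × ((n : Fin N) → Fin (M n))) : Set Pm :=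
  {a | a ∈ K₁ S ∧ (∀ n, a.2.1 n = 1) ∧
    ∃ t : ℝ, ((k.1 : ℕ) : ℝ) ≤ L * t ∧ (L : ℝ) * t ≤ (k.1 : ℕ) + 1 ∧ prj N a = gam N k.2 t}

theorem isClosed_Pc (S : Set ℕ) (L N : ℕ) (hL : 0 < L) (k : Fin L × ((n : Fin N) → Fin (M n))) :
    IsClosed (Pc S L N k) := by
  have hL' : (0 : ℝ) < L := by exact_mod_cast hL
  have e : Pc S L N k = K₁ S ∩ ((⋂ n, {a : Pm | a.2.1 n = 1}) ∩
      prj N ⁻¹' (gam N k.2 '' Set.Icc (((k.1 : ℕ) : ℝ) / L) ((((k.1 : ℕ) : ℝ) + 1) / L))) := by
    ext a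
    simp only [Pc, Set.mem_ofPred_eq, Set.mem_inter_iff, Set.mem_iInter, Set.mem_preimage,
      Set.mem_image, Set.mem_Icc]
    refine and_congr_right fun _ => and_congr_right fun _ => ?_
    constructor
    · rintro ⟨t, h1, h2, h3⟩
      refine ⟨t, ⟨?_, ?_⟩, h3.symm⟩
      · rw [div_le_iff₀ hL']; linarith
      · rw [le_div_iff₀ hL']; linarith
    · rintro ⟨t, ⟨h1, h2⟩, h3⟩
      rw [div_le_iff₀ hL'] at h1
      rw [le_div_iff₀ hL'] at h2
      exact ⟨t, by linarith, by linarith, h3.symm⟩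
  rw [e]
  refine (isClosed_K₁ S).inter (IsClosed.inter ?_ ?_)
  · exact isClosed_iInter fun n => isClosed_eq (cont_r n) continuous_const
  · exact ((isCompact_Icc.image (cont_gam N k.2)).isClosed).preimage (cont_prj N)

theorem sc_sol (S : Set ℕ) (ε : ℝ) (hε : 0 < ε) :
    SC (Phi '' {a | a ∈ K₁ S ∧ ∀ n, a.2.1 n = 1}) 4 ε := by
  obtain ⟨N, hN⟩ := exists_pow_lt_of_lt_one (show (0 : ℝ) < ε / 2 by linarith)
    (show (1 / 2 : ℝ) < 1 by norm_num)
  obtain ⟨L0, hL0⟩ := exists_nat_gt (1 / ε)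
  obtain ⟨L, hL2, hL⟩ : ∃ L : ℕ, 2 ≤ L ∧ 1 / ε < L := ⟨L0 + 2, by omega, by push_cast; linarith⟩
  have hL' : (0 : ℝ) < L := by
    have : 0 < L := by omega
    exact_mod_cast this
  have hL3 : 1 ≤ ε * L := by
    rw [div_lt_iff₀ hε] at hL
    linarith
  refine ⟨Fin L × ((n : Fin N) → Fin (M n)), inferInstance, fun k => Phi '' Pc S L N k,
    fun k => ((isClosed_Pc S L N (by omega) k).isCompact.image cont_Phi).isClosed, ?_, ?_, ?_⟩
  · rintro _ ⟨a, ⟨ha, hr⟩, rfl⟩
    obtain ⟨t, ht0, ht1, ht⟩ := rep_exists a.1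
    have hang : ∀ n, ∃ j : ℕ, a.2.2 n = (((t + j) / M n : ℝ) : UnitAddCircle) := by
      intro n
      apply angle n t ht1
      rw [(ha.1 n).1, ht]
    choose j hj using hang
    obtain ⟨i, hi, hi1, hi2⟩ := exists_cell L (by omega) t ht0 ht1.le
    have hMp : ∀ n, 0 < M n := fun n => Nat.succ_pos _
    refine ⟨(⟨i, hi⟩, fun n => ⟨j n % M n, Nat.mod_lt _ (hMp n)⟩), a, ⟨ha, hr, t, hi1, hi2, ?_⟩, rfl⟩
    refine Prod.ext ht.symm ?_
    funext n
    show a.2.2 n = (((t + ((j n % M n : ℕ) : ℝ)) / M n : ℝ) : UnitAddCircle)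
    rw [hj n]
    have e1 : (j n : ℝ) = ((j n % M n : ℕ) : ℝ) + M n * ((j n / M n : ℕ) : ℝ) := by
      have := Nat.mod_add_div (j n) (M n)
      exact_mod_cast this.symm
    have e2 : (t + j n) / M n = (t + ((j n % M n : ℕ) : ℝ)) / M n + ((j n / M n : ℕ) : ℝ) := by
      rw [e1]
      have := (M_pos' n).ne'
      field_simp
      ring
    rw [e2, AddCircle.coe_add, coe_nat', add_zero]
  · rintro k _ ⟨a, ⟨ha, har, t, h1, h2, h3⟩, rfl⟩ _ ⟨b, ⟨hb, hbr, u, g1, g2, g3⟩, rfl⟩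
    have htu : |t - u| ≤ ε := by
      have h4 : L * |t - u| ≤ 1 := by
        have h5 : |(L : ℝ) * (t - u)| ≤ 1 := by
          rw [abs_le, mul_sub]
          constructor <;> linarith
        rwa [abs_mul, abs_of_pos hL'] at h5
      by_contra hcon
      push Not at hcon
      nlinarith
    refine dist_le_par a b N ε ?_ ?_ (by linarith)
    · have e1 : a.1 = (t : UnitAddCircle) := congrArg Prod.fst h3
      have e2 : b.1 = (u : UnitAddCircle) := congrArg Prod.fst g3
      rw [e1, e2, ← AddCircle.coe_sub]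
      exact (norm_coe_le _).trans htu
    · intro n hn
      have e1 : a.2.2 n = (((t + (k.2 ⟨n, hn⟩ : ℕ)) / M n : ℝ) : UnitAddCircle) :=
        congrFun (congrArg Prod.snd h3) ⟨n, hn⟩
      have e2 : b.2.2 n = (((u + (k.2 ⟨n, hn⟩ : ℕ)) / M n : ℝ) : UnitAddCircle) :=
        congrFun (congrArg Prod.snd g3) ⟨n, hn⟩
      rw [har n, hbr n, sub_self, abs_zero, zero_add, e1, e2, ← AddCircle.coe_sub]
      refine (norm_coe_le _).trans ?_
      have e3 : (t + (k.2 ⟨n, hn⟩ : ℕ)) / M n - (u + (k.2 ⟨n, hn⟩ : ℕ)) / M n = (t - u) / M n := by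
        ring
      rw [e3, abs_div, abs_of_pos (M_pos' n)]
      refine (div_le_self (abs_nonneg _) ?_).trans htu
      have : 1 ≤ M n := Nat.succ_le_succ (Nat.zero_le _)
      exact_mod_cast this
  · intro x
    by_cases hx : ∃ a, a ∈ K₁ S ∧ (∀ n, a.2.1 n = 1) ∧ Phi a = x
    swap
    · have : {k | x ∈ Phi '' Pc S L N k} = ∅ := by
        rw [Set.eq_empty_iff_forall_notMem]
        rintro k ⟨a, ⟨ha, har, _⟩, hax⟩
        exact hx ⟨a, ha, har, hax⟩
      rw [this]
      simp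
    obtain ⟨a, ha, har, rfl⟩ := hx
    -- every point with the same image has the same coordinates
    have huniq : ∀ b : Pm, (∀ n, b.2.1 n = 1) → Phi b = Phi a → prj N b = prj N a := by
      intro b hb hba
      obtain ⟨i1, i2⟩ := inj hba
      refine Prod.ext i1 (funext fun n => ?_)
      exact (i2 n).2 (by rw [hb]; exact one_ne_zero)
    obtain ⟨t0, ht0, ht1, ht⟩ := rep_exists a.1
    have hmem : ∀ k, Phi a ∈ Phi '' Pc S L N k → ∃ t : ℝ, ((k.1 : ℕ) : ℝ) ≤ L * t ∧
        (L : ℝ) * t ≤ (k.1 : ℕ) + 1 ∧ prj N a = gam N k.2 t := by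
      rintro k ⟨b, ⟨hb, hbr, t, h1, h2, h3⟩, hba⟩
      exact ⟨t, h1, h2, by rw [← huniq b hbr hba, h3]⟩
    have hrange : ∀ k : Fin L × ((n : Fin N) → Fin (M n)), ∀ t : ℝ, ((k.1 : ℕ) : ℝ) ≤ L * t →
        (L : ℝ) * t ≤ (k.1 : ℕ) + 1 → 0 ≤ t ∧ t ≤ 1 := by
      intro k t h1 h2
      have hk := k.1.2
      have hk' : ((k.1 : ℕ) : ℝ) + 1 ≤ L := by exact_mod_cast hk
      constructor
      · by_contra hcon
        push Not at hcon
        have : (0 : ℝ) ≤ ((k.1 : ℕ) : ℝ) := Nat.cast_nonneg _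
        nlinarith
      · by_contra hcon
        push Not at hcon
        nlinarith
    -- the map to the index of the cell
    have h5 : ∀ k ∈ {k | Phi a ∈ Phi '' Pc S L N k}, (k.1 : ℕ) ∈
        ({⌊(L : ℝ) * t0⌋₊, ⌊(L : ℝ) * t0⌋₊ - 1, 0, L - 1} : Set ℕ) := by
      intro k hk
      obtain ⟨t, h1, h2, h3⟩ := hmem k hk
      obtain ⟨r0, r1⟩ := hrange k t h1 h2
      have e1 : (t : UnitAddCircle) = (t0 : UnitAddCircle) := by
        have : a.1 = (t : UnitAddCircle) := congrArg Prod.fst h3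
        rw [← this, ht]
      have e2 : ((t - t0 : ℝ) : UnitAddCircle) = 0 := by rw [AddCircle.coe_sub, e1, sub_self]
      rw [AddCircle.coe_eq_zero_iff] at e2
      obtain ⟨z, hz⟩ := e2
      have hz' : (z : ℝ) = t - t0 := by simpa using hz
      have hz1 : (-1 : ℝ) < z := by rw [hz']; linarith
      have hz2 : (z : ℝ) ≤ 1 := by rw [hz']; linarith
      have hz3 : (-1 : ℤ) < z := by exact_mod_cast hz1
      have hz4 : z ≤ 1 := by exact_mod_cast hz2
      have hz5 : z = 0 ∨ z = 1 := by omega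
      rcases hz5 with hz5 | hz5
      · have : t = t0 := by rw [hz5] at hz'; push_cast at hz'; linarith
        subst this
        rcases grid L t _ h1 h2 with h | h
        · left; exact h
        · right; left; exact h
      · have h6 : t = 1 := by rw [hz5] at hz'; push_cast at hz'; linarith
        right; right; right
        rw [h6, mul_one] at h2
        have h7 : L ≤ (k.1 : ℕ) + 1 := by exact_mod_cast h2
        have h8 := k.1.2
        show (k.1 : ℕ) = L - 1
        omega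
    have h6 : Set.InjOn (fun k : Fin L × ((n : Fin N) → Fin (M n)) => (k.1 : ℕ))
        {k | Phi a ∈ Phi '' Pc S L N k} := by
      intro k hk k' hk' hkk
      obtain ⟨t, h1, h2, h3⟩ := hmem k hk
      obtain ⟨u, g1, g2, g3⟩ := hmem k' hk'
      simp only at hkk
      have hk1 : k.1 = k'.1 := Fin.ext hkk
      have htu : t = u := by
        have e1 : (t : UnitAddCircle) = (u : UnitAddCircle) := by
          have i1 : a.1 = (t : UnitAddCircle) := congrArg Prod.fst h3
          have i2 : a.1 = (u : UnitAddCircle) := congrArg Prod.fst g3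
          rw [← i1, i2]
        have e2 : ((t - u : ℝ) : UnitAddCircle) = 0 := by rw [AddCircle.coe_sub, e1, sub_self]
        rw [AddCircle.coe_eq_zero_iff] at e2
        obtain ⟨z, hz⟩ := e2
        have hz' : (z : ℝ) = t - u := by simpa using hz
        rw [← hk1] at g1 g2
        have hL2' : (2 : ℝ) ≤ L := by exact_mod_cast hL2
        have hz1 : (-1 : ℝ) < z := by
          rw [hz']
          by_contra hcon
          push Not at hcon
          nlinarith
        have hz2 : (z : ℝ) < 1 := by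
          rw [hz']
          by_contra hcon
          push Not at hcon
          nlinarith
        have hz3 : (-1 : ℤ) < z := by exact_mod_cast hz1
        have hz4 : z < 1 := by exact_mod_cast hz2
        have hz5 : z = 0 := by omega
        rw [hz5] at hz'
        push_cast at hz'
        linarith
      refine Prod.ext hk1 (funext fun n => Fin.ext ?_)
      have e1 : gam N k.2 t = gam N k'.2 u := by rw [← h3, g3]
      have e2 : (((t + (k.2 n : ℕ)) / M n : ℝ) : UnitAddCircle) =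
          (((u + (k'.2 n : ℕ)) / M n : ℝ) : UnitAddCircle) := congrFun (congrArg Prod.snd e1) n
      rw [← sub_eq_zero, ← AddCircle.coe_sub, AddCircle.coe_eq_zero_iff] at e2
      obtain ⟨z, hz⟩ := e2
      have hM := M_pos' n
      have hz' : (z : ℝ) = (t + (k.2 n : ℕ)) / M n - (u + (k'.2 n : ℕ)) / M n := by simpa using hz
      have hz2 : (z : ℝ) * M n = (k.2 n : ℕ) - (k'.2 n : ℕ) := by
        rw [hz', htu]
        field_simp
        ring
      have hz3 : z * (M n : ℤ) = ((k.2 n : ℕ) : ℤ) - ((k'.2 n : ℕ) : ℤ) := by exact_mod_cast hz2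
      have b1 := (k.2 n).2
      have b2 := (k'.2 n).2
      have hz4 : z = 0 := by
        by_contra hne
        rcases lt_or_gt_of_ne hne with hlt | hgt
        · have : z * (M n : ℤ) ≤ -1 * (M n : ℤ) :=
            mul_le_mul_of_nonneg_right (by omega) (by positivity)
          omega
        · have : 1 * (M n : ℤ) ≤ z * (M n : ℤ) :=
            mul_le_mul_of_nonneg_right (by omega) (by positivity)
          omega
      rw [hz4, zero_mul] at hz3
      omega
    have hfin : ({⌊(L : ℝ) * t0⌋₊, ⌊(L : ℝ) * t0⌋₊ - 1, 0, L - 1} : Set ℕ).Finite := Set.toFinite _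
    refine (Set.ncard_le_ncard_of_injOn _ h5 h6 hfin).trans ?_
    refine (Set.ncard_insert_le _ _).trans ?_
    refine Nat.succ_le_succ ((Set.ncard_insert_le _ _).trans ?_)
    refine Nat.succ_le_succ ((Set.ncard_insert_le _ _).trans ?_)
    exact Nat.succ_le_succ (by simp)

/-! ### The half arcs -/

/-- a piece of a half arc, up to the radius `ρ` -/
def Hp (S : Set ℕ) (b : Bool) (ρ : ℝ) (L : ℕ) (n j : ℕ) : Set (ℕ →ᵇ ℝ × ℝ × ℝ) :=
  {x | n ∉ S ∧ ∃ s : unitInterval, (j : ℝ) ≤ L * s ∧ (L : ℝ) * s ≤ j + 1 ∧ (s : ℝ) ≤ ρ ∧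
    x = Phi (hf n b s)}

theorem isClosed_Hp (S : Set ℕ) (b : Bool) (ρ : ℝ) (L : ℕ) (n j : ℕ) :
    IsClosed (Hp S b ρ L n j) := by
  by_cases hn : n ∈ S
  · have : Hp S b ρ L n j = ∅ := by
      rw [Set.eq_empty_iff_forall_notMem]
      rintro x ⟨h, _⟩
      exact h hn
    rw [this]
    exact isClosed_empty
  · have : Hp S b ρ L n j = (fun s : unitInterval => Phi (hf n b s)) ''
        ({s | (j : ℝ) ≤ L * s} ∩ ({s | (L : ℝ) * s ≤ j + 1} ∩ {s | (s : ℝ) ≤ ρ})) := by
      ext x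
      constructor
      · rintro ⟨_, s, h1, h2, h3, rfl⟩
        exact ⟨s, ⟨h1, h2, h3⟩, rfl⟩
      · rintro ⟨s, ⟨h1, h2, h3⟩, rfl⟩
        exact ⟨hn, s, h1, h2, h3, rfl⟩
    rw [this]
    refine (IsCompact.image ?_ (cont_Phi.comp (cont_hf n b))).isClosed
    refine IsClosed.isCompact (IsClosed.inter ?_ (IsClosed.inter ?_ ?_))
    · exact isClosed_le continuous_const (continuous_const.mul continuous_subtype_val)
    · exact isClosed_le (continuous_const.mul continuous_subtype_val) continuous_const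
    · exact isClosed_le continuous_subtype_val continuous_const

theorem sc_half (S : Set ℕ) (b : Bool) (ρ : ℝ) (hρ : b = true ∨ ρ < 1) (N : ℕ) (ε : ℝ)
    (hε : 0 < ε) :
    SC {x | ∃ n < N, n ∉ S ∧ ∃ s : unitInterval, (s : ℝ) ≤ ρ ∧ x = Phi (hf n b s)} 2 ε := by
  obtain ⟨L0, hL0⟩ := exists_nat_gt (1 / ε)
  obtain ⟨L, hL2, hL⟩ : ∃ L : ℕ, 2 ≤ L ∧ 1 / ε < L := ⟨L0 + 2, by omega, by push_cast; linarith⟩
  have hL' : (0 : ℝ) < L := by
    have : 0 < L := by omega
    exact_mod_cast this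
  have hL3 : 1 ≤ ε * L := by
    rw [div_lt_iff₀ hε] at hL
    linarith
  obtain ⟨N', hN'⟩ := exists_pow_lt_of_lt_one (show (0 : ℝ) < ε / 2 by linarith)
    (show (1 / 2 : ℝ) < 1 by norm_num)
  refine ⟨Fin N × Fin L, inferInstance, fun k => Hp S b ρ L k.1 k.2,
    fun k => isClosed_Hp _ _ _ _ _ _, ?_, ?_, ?_⟩
  · rintro x ⟨n, hn, hnS, s, hs, rfl⟩
    obtain ⟨j, hj, hj1, hj2⟩ := exists_cell L (by omega) s s.2.1 s.2.2
    exact ⟨(⟨n, hn⟩, ⟨j, hj⟩), hnS, s, hj1, hj2, hs, rfl⟩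
  · rintro k _ ⟨hn, s, h1, h2, h3, rfl⟩ _ ⟨_, u, g1, g2, g3, rfl⟩
    have hsu : |(s : ℝ) - u| ≤ ε := by
      have h4 : L * |(s : ℝ) - u| ≤ 1 := by
        have h5 : |(L : ℝ) * ((s : ℝ) - u)| ≤ 1 := by
          rw [abs_le, mul_sub]
          constructor <;> linarith
        rwa [abs_mul, abs_of_pos hL'] at h5
      by_contra hcon
      push Not at hcon
      nlinarith
    refine dist_le_par _ _ N' ε ?_ ?_ (by linarith)
    · show ‖(0 : UnitAddCircle) - 0‖ ≤ ε
      simp [hε.le]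
    · intro m _
      have : (hf k.1 b s).2.2 m = (hf k.1 b u).2.2 m := rfl
      rw [this, sub_self, norm_zero, add_zero]
      by_cases hm : m = k.1
      · simpa [hf, hm] using hsu
      · simp [hf, hm, hε.le]
  · intro x
    -- the arc and the radius are determined
    have huniq : ∀ (n n' : ℕ) (s u : unitInterval), (s : ℝ) ≤ ρ → (u : ℝ) ≤ ρ →
        Phi (hf n b s) = Phi (hf n' b u) → n = n' ∧ s = u := by
      intro n n' s u hs hu h
      obtain ⟨_, i2⟩ := inj h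
      have hnn : n = n' := by
        by_contra hne
        have hne' : ¬ n' = n := fun h => hne h.symm
        have e1 : s = 1 := by
          have := (i2 n).1
          simpa [hf, hne] using this
        have e2 : u = 1 := by
          have := (i2 n').1
          simpa [hf, hne'] using this.symm
        rcases hρ with hb | hb
        · have h3 := (i2 n).2 (by simp [hf, e1])
          simp [hf, hne, hb] at h3
          exact an_ne n h3
        · rw [e1] at hs
          have : (1 : ℝ) ≤ ρ := hs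
          linarith
      refine ⟨hnn, ?_⟩
      subst hnn
      have := (i2 n).1
      simpa [hf] using this
    by_cases hx : ∃ n, ∃ s : unitInterval, (s : ℝ) ≤ ρ ∧ x = Phi (hf n b s)
    swap
    · have : {k : Fin N × Fin L | x ∈ Hp S b ρ L k.1 k.2} = ∅ := by
        rw [Set.eq_empty_iff_forall_notMem]
        rintro k ⟨_, s, _, _, h3, h4⟩
        exact hx ⟨_, s, h3, h4⟩
      rw [this]
      simp
    obtain ⟨n0, s0, hs0, rfl⟩ := hx
    have h5 : ∀ k ∈ {k : Fin N × Fin L | Phi (hf n0 b s0) ∈ Hp S b ρ L k.1 k.2}, (k.2 : ℕ) ∈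
        ({⌊(L : ℝ) * s0⌋₊, ⌊(L : ℝ) * s0⌋₊ - 1} : Set ℕ) := by
      rintro k ⟨_, s, h1, h2, h3, h4⟩
      obtain ⟨_, rfl⟩ := huniq _ _ _ _ hs0 h3 h4
      exact grid L _ _ h1 h2
    have h6 : Set.InjOn (fun k : Fin N × Fin L => (k.2 : ℕ))
        {k | Phi (hf n0 b s0) ∈ Hp S b ρ L k.1 k.2} := by
      rintro k ⟨_, s, h1, h2, h3, h4⟩ k' ⟨_, s', h1', h2', h3', h4'⟩ hkk
      have e1 := (huniq _ _ _ _ hs0 h3 h4).1
      have e2 := (huniq _ _ _ _ hs0 h3' h4').1
      exact Prod.ext (Fin.ext (by rw [← e1, ← e2])) (Fin.ext hkk)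
    have hfin : ({⌊(L : ℝ) * s0⌋₊, ⌊(L : ℝ) * s0⌋₊ - 1} : Set ℕ).Finite := Set.toFinite _
    refine (Set.ncard_le_ncard_of_injOn _ h5 h6 hfin).trans ?_
    refine (Set.ncard_insert_le _ _).trans ?_
    exact Nat.succ_le_succ (by simp)

/-! ### The neighbourhood of the base point -/

/-- the parameters near the base point -/
def Bs (S : Set ℕ) (N : ℕ) (δ : ℝ) : Set Pm :=
  {a | a ∈ K₁ S ∧ a.1 = 0 ∧ ∀ n < N, a.2.2 n = 0 ∧ 1 - δ ≤ (a.2.1 n : ℝ)}

theorem isClosed_Bs (S : Set ℕ) (N : ℕ) (δ : ℝ) : IsClosed (Bs S N δ) := by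
  have e : Bs S N δ = K₁ S ∩ ({a | a.1 = 0} ∩ ⋂ n, ⋂ (_ : n < N),
      ({a : Pm | a.2.2 n = 0} ∩ {a : Pm | 1 - δ ≤ (a.2.1 n : ℝ)})) := by
    ext a
    simp only [Bs, Set.mem_ofPred_eq, Set.mem_inter_iff, Set.mem_iInter]
  rw [e]
  refine (isClosed_K₁ S).inter ((isClosed_eq continuous_fst continuous_const).inter ?_)
  refine isClosed_iInter fun n => isClosed_iInter fun _ => IsClosed.inter ?_ ?_
  · exact isClosed_eq (cont_w n) continuous_const
  · exact isClosed_le continuous_const (continuous_subtype_val.comp (cont_r n))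

theorem sc_base (S : Set ℕ) (N : ℕ) (δ ε : ℝ) (hδ0 : 0 ≤ δ) (hδ : δ ≤ ε)
    (hN : 2 * (1 / 2 : ℝ) ^ N ≤ ε) : SC (Phi '' Bs S N δ) 1 ε := by
  refine ⟨Unit, inferInstance, fun _ => Phi '' Bs S N δ,
    fun _ => ((isClosed_Bs S N δ).isCompact.image cont_Phi).isClosed, fun x hx => ⟨(), hx⟩, ?_, ?_⟩
  · rintro _ _ ⟨a, ⟨_, ha1, ha2⟩, rfl⟩ _ ⟨b, ⟨_, hb1, hb2⟩, rfl⟩
    refine dist_le_par _ _ N ε ?_ ?_ hN
    · rw [ha1, hb1, sub_self, norm_zero]; linarith
    · intro n hn
      rw [(ha2 n hn).1, (hb2 n hn).1, sub_self, norm_zero, add_zero, abs_le]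
      have h1 := (ha2 n hn).2
      have h2 := (hb2 n hn).2
      have h3 := (a.2.1 n).2.2
      have h4 := (b.2.1 n).2.2
      constructor <;> linarith
  · intro x
    refine (Set.ncard_le_ncard (Set.subset_univ _) (Set.toFinite _)).trans ?_
    simp

theorem sc_X₁ (S : Set ℕ) (ε : ℝ) (hε : 0 < ε) : SC (X₁ S) 9 ε := by
  obtain ⟨N, hN⟩ := exists_pow_lt_of_lt_one (show (0 : ℝ) < ε / 2 by linarith)
    (show (1 / 2 : ℝ) < 1 by norm_num)
  obtain ⟨δ, hδ0, hδ1⟩ : ∃ δ : ℝ, 0 < δ ∧ δ ≤ ε := ⟨ε, hε, le_rfl⟩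
  have h1 := sc_sol S ε hε
  have h2 := sc_base S N δ ε hδ0.le hδ1 (by linarith)
  have h3 := sc_half S false (1 - δ) (Or.inr (by linarith)) N ε hε
  have h4 := sc_half S true 1 (Or.inl rfl) N ε hε
  refine (((h1.union h2).union h3).union h4).mono ?_
  rintro _ ⟨a, ha, rfl⟩
  rcases K₁_cases ha with h | ⟨n, hn, h⟩
  · exact Or.inl (Or.inl (Or.inl ⟨a, ⟨ha, h⟩, rfl⟩))
  · obtain ⟨b, s, rfl⟩ := Ar_eq h
    by_cases hnN : n < N
    · cases b
      · by_cases hs : (s : ℝ) ≤ 1 - δ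
        · exact Or.inl (Or.inr ⟨n, hnN, hn, s, hs, rfl⟩)
        · refine Or.inl (Or.inl (Or.inr ⟨_, ⟨ha, rfl, fun m _ => ⟨?_, ?_⟩⟩, rfl⟩))
          · simp [hf]
          · by_cases hm : m = n
            · have : ((hf n false s).2.1 m : ℝ) = s := by simp [hf, hm]
              rw [this]; linarith
            · have : ((hf n false s).2.1 m : ℝ) = 1 := by simp [hf, hm]
              rw [this]; linarith
      · exact Or.inr ⟨n, hnN, hn, s, s.2.2, rfl⟩
    · refine Or.inl (Or.inl (Or.inr ⟨_, ⟨ha, rfl, fun m hm => ?_⟩, rfl⟩))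
      have hmn : m ≠ n := by omega
      refine ⟨by simp [hf, hmn], ?_⟩
      have : ((hf n b s).2.1 m : ℝ) = 1 := by simp [hf, hmn]
      rw [this]; linarith

theorem dim_X₁ (S : Set ℕ) : DimLE (X₁ S) 8 := by
  haveI : CompactSpace (X₁ S) := isCompact_iff_compactSpace.1 (isCompact_X₁ S)
  exact dimLE_of_SC fun ε hε => (sc_X₁ S ε hε).subtype

end Pool.Agent.H2LQ
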