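import Pool.Agent.H2LQ.Dim
import Pool.Agent.W361.LQ.Fin
import Pool.Agent.W923.LQ.Val
import Pool.Agent.W641.LQ.APX
import Pool.Agent.W19.LQ.FP
import Pool.Agent.W585.LQ.NM
import Pool.Agent.W89.LQ.Lt
import Pool.Agent.W918.LQ.CX
import Pool.Agent.W565.LQ.Near
import Pool.Agent.W311.LQ.Init
import Pool.Agent.W924.LQ.BACK
import Pool.Agent.W605.LQ.Forth
import Pool.Agent.W436.LQ.PI
import Pool.Agent.W162.LQ.Tab
import Pool.Agent.W952.LP.Low

/-!
# Assembly: a compact connected finite-dimensional space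
-/

set_option autoImplicit false

namespace Pool.Agent.H2LQ

open BoundedContinuousFunction Pool.Agent.W361.LQ Pool.Agent.Helper227 Pool.Agent.H685R3
open Pool.Agent.W952.LP (zero Presented DimLE CompIn ratVal)

/-- no computable presentation -/
theorem no_comp {D : ℕ → Bool} (hD : ¬ TLe (jump D) (jump zero)) (S : Set ℕ)
    (hS : S = {n | jump D n = false}) (Q : Type) [MetricSpace Q] (y : ℕ → Q)
    (hy : DenseRange y) (h : ℕ → ℕ) (hh1 : Computable h)
    (hh2 : ∀ i j k : ℕ,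
      |(h (Nat.pair i (Nat.pair j k)) : ℝ) / 2 ^ k - dist (y i) (y j)| ≤ 1 / 2 ^ k) :
    IsEmpty (X₁ S ≃ₜ Q) := by
  subst hS
  set S : Set ℕ := {n | jump D n = false} with hSdef
  have hcX : CompactSpace (X₁ S) := isCompact_iff_compactSpace.1 (isCompact_X₁ S)
  have hNEAR := Pool.Agent.W565.LQ.Near.main
  refine ⟨fun φ => ?_⟩
  have hcQ : CompactSpace Q := φ.compactSpace
  obtain ⟨f, hf1, hf2⟩ := div S
  let f' : C(Q, UnitAddCircle) := ⟨fun q => f (φ.symm q), f.continuous.comp φ.symm.continuous⟩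
  obtain ⟨C, d, hC⟩ := Pool.Agent.W311.LQ.main Q y hy f'
  obtain ⟨hL, hG⟩ := Pool.Agent.W89.LQ.Lt.main (fun i j => dist (y i) (y j)) h hh1 hh2
  have key : ∀ n : ℕ, jump D n = false ↔ ∃ (E : List (ℕ × ℕ)) (e : ℕ),
      Cond (LtY y) (GtY y) C d (M n) E e := by
    intro n
    constructor
    · intro hn
      obtain ⟨g, hg⟩ := hf2 n hn
      let g' : C(Q, UnitAddCircle) :=
        ⟨fun q => g (φ.symm q), g.continuous.comp φ.symm.continuous⟩
      exact Pool.Agent.W605.LQ.Forth.main hNEAR Q y hy f' g' C d (M n) (M_pos n) hC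
        fun q => hg (φ.symm q)
    · rintro ⟨E, e, hE⟩
      obtain ⟨g', hg'⟩ := Pool.Agent.W924.LQ.BACK.main hNEAR Q y hy f' C d (M n) (M_pos n) hC E e hE
      let g : C(X₁ S, UnitAddCircle) := ⟨fun x => g' (φ x), g'.continuous.comp φ.continuous⟩
      refine non S f g n hf1 fun x => ?_
      have h3 := hg' (φ x)
      simp only [f', ContinuousMap.coe_mk, Homeomorph.symm_apply_apply] at h3
      exact h3
  refine Pool.Agent.W436.LQ.main D hD ?_
  exact (Pool.Agent.W918.LQ.CX.main (LtY y) (GtY y) hL hG C d).of_eq fun n => (key n).symm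

/-- the function computing the distances -/
def G₁ (c c' : Cd) (k : ℕ) : ℕ := Nat.pair (F c c' k) (2 ^ k - 1)

theorem p_G₁ : Primrec fun x : Cd × Cd × ℕ => G₁ x.1 x.2.1 x.2.2 := by
  have h1 : Primrec fun x : Cd × Cd × ℕ => F x.1 x.2.1 x.2.2 := Pool.Agent.W19.LQ.main
  have h2 : Primrec fun k : ℕ => 2 ^ k := by
    have h3 : Primrec fun k : ℕ => Nat.rec (motive := fun _ => ℕ) 1 (fun _ IH => IH * 2) k :=
      Primrec.nat_rec₁ 1 (Primrec.nat_mul.comp Primrec.snd (Primrec.const 2))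
    refine h3.of_eq fun k => ?_
    induction k with
    | zero => rfl
    | succ k ih =>
      show (Nat.rec (motive := fun _ => ℕ) 1 (fun _ IH => IH * 2) k) * 2 = 2 ^ (k + 1)
      rw [ih, pow_succ]
  exact Primrec₂.natPair.comp h1 (Primrec.nat_sub.comp
    (h2.comp (Primrec.snd.comp Primrec.snd)) (Primrec.const 1))

theorem ratVal_G₁ (c c' : Cd) (k : ℕ) : ratVal (G₁ c c' k) = (F c c' k : ℝ) / 2 ^ k := by
  unfold ratVal G₁
  rw [Nat.unpair_pair]
  have : 1 ≤ 2 ^ k := Nat.one_le_two_pow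
  push_cast [Nat.cast_sub this]
  ring_nf

/-- the space has a presentation computable in the oracle -/
theorem presented {D : ℕ → Bool} (S : Set ℕ) (hS : S = {n | jump D n = false}) :
    Presented D (X₁ S) := by
  obtain ⟨T, hT1, hT2⟩ := Pool.Agent.W162.LQTab.main D
  have hS' : ∀ n, n ∉ S ↔ ∃ y, T n y = true := by
    intro n
    rw [← hT2 n]
    simp [hS]
  have hmem := sq₁_mem S T hS'
  have hcX : CompactSpace (X₁ S) := isCompact_iff_compactSpace.1 (isCompact_X₁ S)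
  refine ⟨inferInstance, rfl, inferInstance, fun k => pt₁ S (pm (sq₁ T k)) (hmem k), ?_,
    fun m : ℕ => G₁ (sq₁ T m.unpair.1) (sq₁ T m.unpair.2.unpair.1) m.unpair.2.unpair.2, ?_, ?_⟩
  · rw [Metric.denseRange_iff]
    rintro ⟨_, a, ha, rfl⟩ r hr
    obtain ⟨k, hk⟩ := sq₁_dense S T hS' a ha r hr
    exact ⟨k, hk⟩
  · exact comp' (G := G₁) p_G₁ (nm₁ D T hT1)
  · intro i j k
    simp only [Nat.unpair_pair]
    rw [ratVal_G₁, abs_sub_comm]
    have := Pool.Agent.W641.LQ.apx Pool.Agent.W923.LQ.Val.main (sq₁ T i) (sq₁ T j) k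
    rw [one_div_pow]
    exact this

/-- rounding -/
def rnd (a b k : ℕ) : ℕ := (2 * (a * 2 ^ k) + (b + 1)) / (2 * (b + 1))

theorem rnd_spec (a b k : ℕ) : |(rnd a b k : ℝ) / 2 ^ k - (a : ℝ) / (b + 1)| ≤ 1 / 2 / 2 ^ k := by
  have hb : (0 : ℝ) < b + 1 := by positivity
  have hk : (0 : ℝ) < 2 ^ k := by positivity
  have h1 : rnd a b k * (2 * (b + 1)) ≤ 2 * (a * 2 ^ k) + (b + 1) := Nat.div_mul_le_self _ _
  have h2 : 2 * (a * 2 ^ k) + (b + 1) < (rnd a b k + 1) * (2 * (b + 1)) := by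
    have := Nat.lt_div_mul_add (a := 2 * (a * 2 ^ k) + (b + 1)) (b := 2 * (b + 1)) (by positivity)
    unfold rnd
    linarith
  have h1' : (rnd a b k : ℝ) * (2 * (b + 1)) ≤ 2 * (a * 2 ^ k) + (b + 1) := by exact_mod_cast h1
  have h2' : 2 * ((a : ℝ) * 2 ^ k) + (b + 1) < (rnd a b k + 1) * (2 * (b + 1)) := by
    exact_mod_cast h2
  have e : (rnd a b k : ℝ) / 2 ^ k - (a : ℝ) / (b + 1) =
      ((rnd a b k : ℝ) * (b + 1) - a * 2 ^ k) / (b + 1) / 2 ^ k := by
    field_simp
  rw [e, abs_div, abs_of_pos hk]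
  refine div_le_div_of_nonneg_right ?_ hk.le
  rw [abs_div, abs_of_pos hb, div_le_iff₀ hb, abs_le]
  constructor <;> nlinarith

/-- rounding, as a function of a pair -/
def rq (x : ℕ × ℕ) : ℕ := rnd x.1.unpair.1 x.1.unpair.2 x.2

/-- the argument with the precision raised by one -/
def up (m : ℕ) : ℕ := Nat.pair m.unpair.1 (Nat.pair m.unpair.2.unpair.1 (m.unpair.2.unpair.2 + 1))

/-- from rational approximations to dyadic approximations -/
theorem to_dyadic (d : ℕ → ℕ → ℝ) (f : ℕ → ℕ) (hf : CompIn zero f)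
    (hd : ∀ i j n : ℕ, |d i j - ratVal (f (Nat.pair i (Nat.pair j n)))| ≤ (1 / 2 : ℝ) ^ n) :
    ∃ h : ℕ → ℕ, Computable h ∧
      ∀ i j k : ℕ, |(h (Nat.pair i (Nat.pair j k)) : ℝ) / 2 ^ k - d i j| ≤ 1 / 2 ^ k := by
  have hf' : Computable f := by
    have h0 : TuringReducible (fun n => Part.some (f n)) (fun _ : ℕ => Part.some 0) := hf
    exact TuringReducible.partrec_of_const h0
  have h2 : Primrec fun k : ℕ => 2 ^ k := by
    have h3 : Primrec fun k : ℕ => Nat.rec (motive := fun _ => ℕ) 1 (fun _ IH => IH * 2) k :=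
      Primrec.nat_rec₁ 1 (Primrec.nat_mul.comp Primrec.snd (Primrec.const 2))
    refine h3.of_eq fun k => ?_
    induction k with
    | zero => rfl
    | succ k ih =>
      show (Nat.rec (motive := fun _ => ℕ) 1 (fun _ IH => IH * 2) k) * 2 = 2 ^ (k + 1)
      rw [ih, pow_succ]
  have hr : Primrec rq := by
    unfold rq rnd
    have ha : Primrec fun x : ℕ × ℕ => x.1.unpair.1 :=
      Primrec.fst.comp (Primrec.unpair.comp Primrec.fst)
    have hb : Primrec fun x : ℕ × ℕ => x.1.unpair.2 + 1 :=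
      Primrec.succ.comp (Primrec.snd.comp (Primrec.unpair.comp Primrec.fst))
    exact Primrec.nat_div.comp
      (Primrec.nat_add.comp (Primrec.nat_mul.comp (Primrec.const 2)
        (Primrec.nat_mul.comp ha (h2.comp Primrec.snd))) hb)
      (Primrec.nat_mul.comp (Primrec.const 2) hb)
  have hq : Primrec up :=
    Primrec₂.natPair.comp (Primrec.fst.comp Primrec.unpair)
      (Primrec₂.natPair.comp (Primrec.fst.comp (Primrec.unpair.comp (Primrec.snd.comp Primrec.unpair)))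
        (Primrec.succ.comp (Primrec.snd.comp
          (Primrec.unpair.comp (Primrec.snd.comp Primrec.unpair)))))
  have hk : Primrec fun m : ℕ => m.unpair.2.unpair.2 :=
    Primrec.snd.comp (Primrec.unpair.comp (Primrec.snd.comp Primrec.unpair))
  have hg : Computable fun m : ℕ => (f (up m), m.unpair.2.unpair.2) :=
    (hf'.comp hq.to_comp).pair hk.to_comp
  refine ⟨fun m => rq (f (up m), m.unpair.2.unpair.2), hr.to_comp.comp hg, ?_⟩
  · intro i j k
    have e1 : up (Nat.pair i (Nat.pair j k)) = Nat.pair i (Nat.pair j (k + 1)) := by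
      simp only [up, Nat.unpair_pair]
    have e2 : (Nat.pair i (Nat.pair j k)).unpair.2.unpair.2 = k := by
      simp only [Nat.unpair_pair]
    show |((rq (f (up (Nat.pair i (Nat.pair j k))), (Nat.pair i (Nat.pair j k)).unpair.2.unpair.2)
      : ℕ) : ℝ) / 2 ^ k - d i j| ≤ 1 / 2 ^ k
    rw [e1, e2]
    unfold rq
    simp only []
    have h3 := hd i j (k + 1)
    set u := f (Nat.pair i (Nat.pair j (k + 1)))
    have h4 := rnd_spec u.unpair.1 u.unpair.2 k
    have h5 : ratVal u = (u.unpair.1 : ℝ) / (u.unpair.2 + 1) := rfl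
    rw [← h5] at h4
    have h6 : (1 / 2 : ℝ) ^ (k + 1) = 1 / 2 / 2 ^ k := by
      rw [pow_succ, one_div_pow]; field_simp
    rw [h6] at h3
    rw [abs_le] at h3 h4 ⊢
    have h7 : (1 : ℝ) / 2 ^ k = 1 / 2 / 2 ^ k + 1 / 2 / 2 ^ k := by field_simp; norm_num
    rw [h7]
    constructor <;> linarith [h3.1, h3.2, h4.1, h4.2]

/-- the main result -/
theorem main : ∃ D : ℕ → Bool, TLe (jump (jump D)) (jump (jump zero)) ∧
    ∃ (P : Type) (_ : TopologicalSpace P), CompactSpace P ∧ ConnectedSpace P ∧ DimLE P 8 ∧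
      Presented D P ∧
      ∀ (Q : Type) [TopologicalSpace Q], Presented zero Q → IsEmpty (P ≃ₜ Q) := by
  obtain ⟨D, hD1, hD2⟩ := deg2 Pool.Agent.W952.LP.low Pool.Agent.W952.LP.inv
  refine ⟨D, hD2, X₁ {n | jump D n = false}, inferInstance,
    isCompact_iff_compactSpace.1 (isCompact_X₁ _), isConnected_iff_connectedSpace.1 (isConnected_X₁ _),
    dim_X₁ _, presented _ rfl, ?_⟩
  intro Q t hQ
  obtain ⟨m, hm, hc, x, hx, f, hf, hd⟩ := hQ
  subst hm
  obtain ⟨h, hh1, hh2⟩ := to_dyadic (fun i j => dist (x i) (x j)) f hf hd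
  exact no_comp hD1 _ rfl Q x hx h hh1 hh2

end Pool.Agent.H2LQ
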