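import Pool.Agent.W361.LQ.Fin
import Pool.Agent.W764.LQ.CPT
import Pool.Agent.W168.LQ.Inj
import Pool.Agent.W395.LQ.Div
import Pool.Agent.W381.LQ.Non
import Pool.Agent.W654.LQ.Dense

/-!
# A one-dimensional connected variant of the space of project LQ

`K₁ S` consists of the parameters of the solenoid (all radii `1`) and, for `n ∉ S`, of an arc which
joins the point with all angles `0` to the point with angle `1 / M n` at `n` and all other angles `0`.
-/

set_option autoImplicit false

namespace Pool.Agent.H2LQ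

open BoundedContinuousFunction Pool.Agent.W361.LQ Filter Topology

theorem M_pos' (n : ℕ) : (0 : ℝ) < M n := Pool.Agent.W654.LQ.Dense.M_pos n

/-- the angle `1 / M n` -/
noncomputable def an (n : ℕ) : UnitAddCircle := ((1 / M n : ℝ) : UnitAddCircle)

theorem an_ne (n : ℕ) : an n ≠ 0 := by
  unfold an
  rw [Ne, AddCircle.coe_eq_zero_iff]
  rintro ⟨m, hm⟩
  have h1 : (m : ℝ) * M n = 1 := by
    have : (m : ℝ) = 1 / M n := by simpa using hm
    rw [this]
    field_simp [(M_pos' n).ne']
  have h2 : m * (M n : ℤ) = 1 := by exact_mod_cast h1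
  have h3 : (2 : ℤ) ≤ M n := by
    have : 2 ≤ M n := by
      unfold M
      have : 0 < 2 ^ 2 ^ n := by positivity
      omega
    exact_mod_cast this
  have h4 := Int.eq_one_or_neg_one_of_mul_eq_one' h2
  omega

theorem smul_an (n : ℕ) : M n • an n = 0 := by
  have := Pool.Agent.W654.LQ.Dense.smul_angle n 1 0
  unfold an
  simpa using this

/-- the parameters of the points of arc `n` -/
def Ar (n : ℕ) : Set Pm :=
  {a | a.1 = 0 ∧ (a.2.2 n = 0 ∨ a.2.2 n = an n) ∧ ∀ m, m ≠ n → a.2.1 m = 1 ∧ a.2.2 m = 0}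

/-- the parameters of the space -/
def K₁ (S : Set ℕ) : Set Pm := {a | a ∈ K S ∧ ∀ n, a.2.1 n = 1 ∨ a ∈ Ar n}

/-- the space -/
def X₁ (S : Set ℕ) : Set (ℕ →ᵇ ℝ × ℝ × ℝ) := Phi '' K₁ S

theorem cont_r (n : ℕ) : Continuous (fun a : Pm => a.2.1 n) :=
  (continuous_apply n).comp (continuous_fst.comp continuous_snd)

theorem cont_w (n : ℕ) : Continuous (fun a : Pm => a.2.2 n) :=
  (continuous_apply n).comp (continuous_snd.comp continuous_snd)

theorem isClosed_Ar (n : ℕ) : IsClosed (Ar n) := by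
  have h : Ar n = {a : Pm | a.1 = 0} ∩ (({a : Pm | a.2.2 n = 0} ∪ {a : Pm | a.2.2 n = an n}) ∩
      ⋂ m, {a : Pm | m ≠ n → a.2.1 m = 1 ∧ a.2.2 m = 0}) := by
    ext a
    simp only [Ar, Set.mem_ofPred_eq, Set.mem_inter_iff, Set.mem_union, Set.mem_iInter]
  rw [h]
  refine (isClosed_eq continuous_fst continuous_const).inter (IsClosed.inter ?_ ?_)
  · exact (isClosed_eq (cont_w n) continuous_const).union (isClosed_eq (cont_w n) continuous_const)
  · refine isClosed_iInter fun m => ?_
    by_cases hm : m = n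
    · have : {a : Pm | m ≠ n → a.2.1 m = 1 ∧ a.2.2 m = 0} = Set.univ := by
        ext a; simp [hm]
      rw [this]; exact isClosed_univ
    · have : {a : Pm | m ≠ n → a.2.1 m = 1 ∧ a.2.2 m = 0} =
          {a : Pm | a.2.1 m = 1} ∩ {a : Pm | a.2.2 m = 0} := by
        ext a; simp [hm]
      rw [this]
      exact (isClosed_eq (cont_r m) continuous_const).inter
        (isClosed_eq (cont_w m) continuous_const)

theorem isClosed_K₁ (S : Set ℕ) : IsClosed (K₁ S) := by
  have h : K₁ S = K S ∩ ⋂ n, ({a : Pm | a.2.1 n = 1} ∪ Ar n) := by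
    ext a
    simp only [K₁, Set.mem_ofPred_eq, Set.mem_inter_iff, Set.mem_iInter, Set.mem_union]
  rw [h]
  exact (Pool.Agent.W764.LQ.main.1 S).inter (isClosed_iInter fun n =>
    (isClosed_eq (cont_r n) continuous_const).union (isClosed_Ar n))

theorem cont_Phi : Continuous Phi := Pool.Agent.W764.LQ.main.2

theorem isCompact_X₁ (S : Set ℕ) : IsCompact (X₁ S) := (isClosed_K₁ S).isCompact.image cont_Phi

theorem X₁_sub (S : Set ℕ) : X₁ S ⊆ X S := Set.image_mono fun _ h => h.1

/-- the point of the space with parameter `a` -/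
noncomputable def pt₁ (S : Set ℕ) (a : Pm) (h : a ∈ K₁ S) : X₁ S := ⟨Phi a, a, h, rfl⟩

/-! ## The paths -/

/-- the line in the solenoid -/
noncomputable def ln (t : ℝ) : Pm :=
  ((t : UnitAddCircle), fun _ => 1, fun j => ((t / M j : ℝ) : UnitAddCircle))

theorem ln_mem (S : Set ℕ) (t : ℝ) : ln t ∈ K₁ S := by
  refine ⟨fun n => ⟨?_, fun _ => rfl⟩, fun n => Or.inl rfl⟩
  have := Pool.Agent.W654.LQ.Dense.smul_angle n 0 t
  simpa [ln] using this

theorem cont_ln : Continuous ln := by
  unfold ln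
  refine (AddCircle.continuous_mk' (1 : ℝ)).prodMk (Continuous.prodMk continuous_const ?_)
  exact continuous_pi fun j => (AddCircle.continuous_mk' (1 : ℝ)).comp (continuous_id.div_const _)

/-- the two halves of the arc: angle `0` (`b = false`) or `1 / M n` (`b = true`) -/
noncomputable def hf (n : ℕ) (b : Bool) (s : unitInterval) : Pm :=
  (0, fun j => if j = n then s else 1, fun j => if j = n then (if b then an n else 0) else 0)

theorem hf_mem {S : Set ℕ} {n : ℕ} (hn : n ∉ S) (b : Bool) (s : unitInterval) :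
    hf n b s ∈ K₁ S := by
  have hA : hf n b s ∈ Ar n := by
    refine ⟨rfl, ?_, fun m hm => ⟨?_, ?_⟩⟩
    · cases b
      · exact Or.inl (by simp [hf])
      · exact Or.inr (by simp [hf])
    · simp [hf, hm]
    · simp [hf, hm]
  refine ⟨fun m => ⟨?_, fun hm => ?_⟩, fun m => ?_⟩
  · by_cases h : m = n
    · subst h
      cases b
      · simp [hf]
      · simp [hf, smul_an]
    · simp [hf, h]
  · have : m ≠ n := fun h => hn (h ▸ hm)
    simp [hf, this]
  · by_cases h : m = n
    · exact Or.inr (h ▸ hA)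
    · exact Or.inl (by simp [hf, h])

theorem cont_hf (n : ℕ) (b : Bool) : Continuous (hf n b) := by
  unfold hf
  refine continuous_const.prodMk (Continuous.prodMk ?_ continuous_const)
  refine continuous_pi fun j => ?_
  by_cases h : j = n
  · simp only [h, if_true]; exact continuous_id
  · simp only [h, if_false]; exact continuous_const

theorem hf_tip (n : ℕ) : Phi (hf n false 0) = Phi (hf n true 0) := by
  ext1 i
  show crd _ i = crd _ i
  unfold crd
  split_ifs with h0
  · rfl
  · by_cases hi : i - 1 = n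
    · simp [hf, hi, co]
    · simp [hf, hi]

theorem hf_base (n : ℕ) : hf n false 1 = ln 0 := by
  unfold hf ln
  refine Prod.ext ?_ (Prod.ext ?_ ?_)
  · exact (AddCircle.coe_zero (1 : ℝ)).symm
  · funext j; simp
  · funext j
    have : ((0 : ℝ) / M j : ℝ) = 0 := by simp
    simp

/-! ## Divisibility -/

theorem tors_const {Y : Type} [TopologicalSpace Y] [PreconnectedSpace Y] (u : Y → UnitAddCircle)
    (hu : Continuous u) (m : ℕ) (hm : 0 < m) (h : ∀ y, m • u y = 0) (y y' : Y) : u y = u y' := by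
  have hm' : (0 : ℝ) < m := by exact_mod_cast hm
  have hloc : IsLocallyConstant u := by
    rw [IsLocallyConstant.iff_eventually_eq]
    intro x
    have h1 : ∀ᶠ y in 𝓝 x, dist (u y) (u x) < 1 / (m : ℝ) :=
      (hu.tendsto x).eventually (Metric.ball_mem_nhds _ (by positivity))
    filter_upwards [h1] with y hy
    rw [dist_eq_norm] at hy
    have h2 : m • (u y - u x) = 0 := by rw [nsmul_sub, h, h, sub_self]
    exact sub_eq_zero.1 (tor h2 hy)
  exact hloc.apply_eq_of_preconnectedSpace y y'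

/-- integers which are `1` modulo `M n` and `0` modulo the first other numbers `M j` -/
theorem exists_time (n k : ℕ) : ∃ t : ℕ, t % M n = 1 ∧ ∀ j < k, j ≠ n → M j ∣ t := by
  have h8 : Nat.Coprime (Pool.Agent.W381.LQ.tk n k) (M n) := by
    refine Nat.Coprime.symm ?_
    unfold Pool.Agent.W381.LQ.tk
    refine Nat.Coprime.prod_right fun j hj => ?_
    have hne : n ≠ j := (Finset.ne_of_mem_erase hj).symm
    exact Nat.coprime_fermatNumber_fermatNumber hne
  have h2 : 1 < M n := by
    unfold M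
    have : 0 < 2 ^ 2 ^ n := by positivity
    omega
  obtain ⟨m, hm⟩ := Nat.exists_mul_mod_eq_one_of_coprime h8 h2
  refine ⟨Pool.Agent.W381.LQ.tk n k * m, hm.2, fun j hj hjn => ?_⟩
  refine Dvd.dvd.mul_right ?_ m
  unfold Pool.Agent.W381.LQ.tk
  exact Finset.dvd_prod_of_mem _ (Finset.mem_erase.2 ⟨hjn, Finset.mem_range.2 hj⟩)

theorem coe_nat' (m : ℕ) : (((m : ℝ)) : UnitAddCircle) = 0 :=
  Pool.Agent.W654.LQ.Dense.coe_nat_zero m

theorem time_lim (n : ℕ) (t : ℕ → ℕ) (ht1 : ∀ k, t k % M n = 1)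
    (ht2 : ∀ k, ∀ j < k, j ≠ n → M j ∣ t k) :
    Tendsto (fun k => ln (t k)) atTop (𝓝 (hf n true 1)) := by
  have e1 : ∀ k, (ln (t k)).1 = 0 := fun k => coe_nat' (t k)
  have e3 : ∀ k, (ln (t k)).2.2 n = an n := by
    intro k
    have h1 : (t k : ℝ) = M n * ((t k / M n : ℕ) : ℝ) + 1 := by
      have := Nat.div_add_mod (t k) (M n)
      rw [ht1 k] at this
      exact_mod_cast this.symm
    have h2 : ((t k : ℝ) / M n : ℝ) = ((t k / M n : ℕ) : ℝ) + 1 / M n := by
      rw [h1]
      have := (M_pos' n).ne'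
      field_simp
    show (((t k : ℝ) / M n : ℝ) : UnitAddCircle) = _
    rw [h2, AddCircle.coe_add, coe_nat', zero_add]
    rfl
  have e4 : ∀ j, j ≠ n → ∀ k, j < k → (ln (t k)).2.2 j = 0 := by
    intro j hj k hk
    obtain ⟨m, hm⟩ := ht2 k j hk hj
    show (((t k : ℝ) / M j : ℝ) : UnitAddCircle) = _
    have h2 : ((t k : ℝ) / M j : ℝ) = (m : ℝ) := by
      rw [hm]
      have := (M_pos' j).ne'
      push_cast
      field_simp
    rw [h2, coe_nat']
  refine Prod.tendsto_iff _ _ |>.2 ⟨?_, Prod.tendsto_iff _ _ |>.2 ⟨?_, ?_⟩⟩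
  · simp only [e1]
    exact tendsto_const_nhds
  · have : (hf n true 1).2.1 = fun _ => 1 := by funext j; simp [hf]
    rw [this]
    exact tendsto_const_nhds
  · rw [tendsto_pi_nhds]
    intro j
    by_cases h : j = n
    · subst h
      have : (hf j true 1).2.2 j = an j := by simp [hf]
      rw [this]
      simp only [e3]
      exact tendsto_const_nhds
    · have : (hf n true 1).2.2 j = 0 := by simp [hf, h]
      rw [this]
      refine tendsto_const_nhds.congr' ?_
      filter_upwards [eventually_gt_atTop j] with k hk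
      exact (e4 j h k hk).symm

/-- no divisibility for `n ∉ S` -/
theorem non (S : Set ℕ) (f g : C(X₁ S, UnitAddCircle)) (n : ℕ)
    (hf1 : ∀ (a : Pm) (h : a ∈ K₁ S), f (pt₁ S a h) = a.1) (hg : ∀ x, M n • g x = f x) :
    n ∈ S := by
  by_contra hn
  have hM : (0 : ℝ) < M n := M_pos' n
  have hMn : 0 < M n := by exact_mod_cast hM
  have hpt : Continuous fun a : K₁ S => pt₁ S a.1 a.2 :=
    Continuous.subtype_mk (cont_Phi.comp continuous_subtype_val) _
  let G : K₁ S → UnitAddCircle := fun a => g (pt₁ S a.1 a.2)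
  have hG : Continuous G := g.continuous.comp hpt
  have hGM : ∀ a : K₁ S, M n • G a = a.1.1 := fun a => by
    show M n • g (pt₁ S a.1 a.2) = _
    rw [hg, hf1]
  -- along the line
  let h : ℝ → UnitAddCircle := fun t => G ⟨ln t, ln_mem S t⟩
  have hh : Continuous h := hG.comp (cont_ln.subtype_mk _)
  have hu : ∀ t : ℝ, h t - ((t / M n : ℝ) : UnitAddCircle) = h 0 := by
    intro t
    have := tors_const (fun t : ℝ => h t - ((t / M n : ℝ) : UnitAddCircle))
      (hh.sub ((AddCircle.continuous_mk' (1 : ℝ)).comp (continuous_id.div_const _))) (M n) hMn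
      (fun t => by
        have e := Pool.Agent.W654.LQ.Dense.smul_angle n 0 t
        rw [Nat.cast_zero, add_zero] at e
        rw [nsmul_sub, e, sub_eq_zero]
        exact hGM _) t 0
    rw [this]
    simp
  -- along the arc
  have harc : ∀ b : Bool, G ⟨hf n b 0, hf_mem hn b 0⟩ = G ⟨hf n b 1, hf_mem hn b 1⟩ := by
    intro b
    exact tors_const (fun s : unitInterval => G ⟨hf n b s, hf_mem hn b s⟩)
      (hG.comp ((cont_hf n b).subtype_mk _)) (M n) hMn (fun s => by rw [hGM]; rfl) 0 1
  have htip : G ⟨hf n false 0, hf_mem hn false 0⟩ = G ⟨hf n true 0, hf_mem hn true 0⟩ := by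
    show g _ = g _
    congr 1
    exact Subtype.ext (hf_tip n)
  have hbase : G ⟨hf n false 1, hf_mem hn false 1⟩ = h 0 := by
    show g _ = g _
    congr 1
    exact Subtype.ext (congrArg Phi (hf_base n))
  have hend : G ⟨hf n true 1, hf_mem hn true 1⟩ = h 0 := by
    rw [← harc true, ← htip, harc false, hbase]
  -- the special times
  choose t ht1 ht2 using exists_time n
  have hlim := time_lim n t ht1 ht2
  have h1 : Tendsto (fun k => h (t k)) atTop (𝓝 (G ⟨hf n true 1, hf_mem hn true 1⟩)) := by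
    refine (hG.tendsto _).comp ?_
    rw [tendsto_subtype_rng]
    exact hlim
  have h2 : ∀ k, h (t k) = h 0 + an n := by
    intro k
    have e := hu (t k)
    have e2 : (((t k : ℝ) / M n : ℝ) : UnitAddCircle) = an n := by
      have h1 : (t k : ℝ) = M n * ((t k / M n : ℕ) : ℝ) + 1 := by
        have := Nat.div_add_mod (t k) (M n)
        rw [ht1 k] at this
        exact_mod_cast this.symm
      have h2 : ((t k : ℝ) / M n : ℝ) = ((t k / M n : ℕ) : ℝ) + 1 / M n := by
        rw [h1]
        have := (M_pos' n).ne'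
        field_simp
      rw [h2, AddCircle.coe_add, coe_nat', zero_add]
      rfl
    rw [e2] at e
    rw [← e]; abel
  simp only [h2] at h1
  have h3 := tendsto_nhds_unique h1 tendsto_const_nhds
  rw [hend] at h3
  exact an_ne n (by simpa using h3)

/-- the map to the circle and its divisibility for `n ∈ S` -/
theorem div (S : Set ℕ) : ∃ f : C(X₁ S, UnitAddCircle),
    (∀ (a : Pm) (h : a ∈ K₁ S), f (pt₁ S a h) = a.1) ∧
      ∀ n ∈ S, ∃ g : C(X₁ S, UnitAddCircle), ∀ x, M n • g x = f x := by
  obtain ⟨f, hf1, hf2⟩ := Pool.Agent.W395.LQ.Div.main Pool.Agent.W764.LQ.main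
    Pool.Agent.W168.LQ.main S
  let ι : C(X₁ S, X S) := ⟨Set.inclusion (X₁_sub S), continuous_inclusion (X₁_sub S)⟩
  refine ⟨f.comp ι, fun a h => hf1 a h.1, fun n hn => ?_⟩
  obtain ⟨g, hg⟩ := hf2 n hn
  exact ⟨g.comp ι, fun x => hg (ι x)⟩

end Pool.Agent.H2LQ
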